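import Pool.Agent.LibPS4.P18

/-!
# Piatetski-Shapiro primes: all exponents outside a set of dimension less than one

For all `α > 1` outside a set which has Hausdorff dimension `< 1` on every bounded interval (in
particular for almost every `α > 1`) the number `π^α(x)` of primes `p ≤ x` of the form `⌊k^α⌋`
satisfies `π^α(x) ~ x^{1/α} / log x`, and
`π^α(x) = ∑_{p ≤ x} ((p+1)^{1/α} - p^{1/α}) + O(x^{1/α - c})` with some `c > 0`.

Idea: with `a = log α` and `Φ(s) = f(⌊exp(exp s)⌋)` one has `f(⌊k^α⌋) = Φ(a + log log k)`, so that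
`∑ f(⌊k^α⌋) - ∫ f(⌊x^α⌋) dx` is, as a function of `a`, the convolution of the step function `Φ` with
a measure whose Fourier transform `∑ (log k)^{it} - ∫ (log x)^{it} dx` has a power saving for
`|t| ≤ K^A` by van der Corput's method. Plancherel's theorem gives a power saving in mean square
over `α`, and a cover of the bad set by cells of a grid gives the dimension bound.
-/

set_option autoImplicit false

open Filter Asymptotics MeasureTheory

namespace Pool.Agent.Results.MP_6cb6d1_nt.AlmostEveryExponent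

/-- `π^α(x)`: the number of primes `p ≤ x` with `p = ⌊k^α⌋` for some integer `k ≥ 1`. -/
noncomputable def piAlpha (α x : ℝ) : ℝ :=
  (({p : ℕ | (p : ℝ) ≤ x ∧ p.Prime ∧ ∃ k : ℕ, 1 ≤ k ∧ ⌊(k : ℝ) ^ α⌋₊ = p} : Set ℕ).ncard : ℝ)

/-- The expected number: the sum of `(p+1)^{1/α} - p^{1/α}` over the primes `p ≤ x`. -/
noncomputable def expected (α x : ℝ) : ℝ :=
  ∑ p ∈ (Finset.range (⌊x⌋₊ + 1)).filter Nat.Prime,
    (((p : ℝ) + 1) ^ (1 / α) - (p : ℝ) ^ (1 / α))

/-- The exponent `α` is good: the asymptotic formula `π^α(x) ~ x^{1/α} / log x` holds, and `π^α(x)`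
differs from the expected number by `O(x^{1/α - c})` for some `c > 0`. -/
def Good (α : ℝ) : Prop :=
  ((fun x : ℝ => piAlpha α x) ~[atTop] (fun x : ℝ => x ^ (1 / α) / Real.log x)) ∧
  ∃ c : ℝ, 0 < c ∧
    (fun x : ℝ => piAlpha α x - expected α x) =O[atTop] (fun x : ℝ => x ^ (1 / α - c))

/-- The exponents `α > 1` that are not good form a set of Hausdorff dimension less than one on
every bounded interval; in particular almost every `α > 1` is good. -/
theorem result :
    (∀ B : ℝ, dimH {α : ℝ | 1 < α ∧ α ≤ B ∧ ¬ Good α} < 1) ∧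
    ∀ᵐ α : ℝ, 1 < α → Good α := by
  refine ⟨fun B => lt_of_le_of_lt (dimH_mono ?_) (PS4.final B), ?_⟩
  · rintro α ⟨h1, h2, h3⟩
    exact ⟨h1.le, h2, h3⟩
  · filter_upwards [PS4.final_ae] with α hα h1
    exact hα h1.le

end Pool.Agent.Results.MP_6cb6d1_nt.AlmostEveryExponent
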